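import Pool.Agent.Lib.MP_89b6e6_ag.PrFin
import Pool.Agent.Lib.MP_89b6e6_ag.PrRey

/-!
# Integral points on components of Betti moduli spaces: products

Let `G` be isomorphic to a finite product of finitely generated groups `Γ i` (for instance the
fundamental group of a product of connected smooth projective complex varieties), and let
`MB G r` be the base change to the complex numbers of the affine quotient over `ℤ` of the
representation scheme `Hom(G, GL_r)` by conjugation.

If for all factors `Γ i` and all ranks `s` from `1` to `r` every irreducible component of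
`MB (Γ i) s` contains a point over the ring of all algebraic integers, then every irreducible
component of `MB G r` contains a point over the ring of all algebraic integers.
-/

open Pool.Agent.Lib.BettiInt

theorem Pool.Agent.Results.MP_89b6e6_ag.Products.result
    (k : ℕ) (Γ : Fin k → Type) [∀ i, Group (Γ i)] [∀ i, Group.FG (Γ i)]
    (G : Type) [Group G] (e : G ≃* ∀ i, Γ i) (r : ℕ)
    (h : ∀ (i : Fin k) (s : ℕ), 1 ≤ s → s ≤ r →
      ∀ W ∈ irreducibleComponents (MB (Γ i) s),
        ∃ φ : Inv (Γ i) s →+* integralClosure ℤ ℂ, zbarPoint φ ∈ W)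
    (W : Set (MB G r)) (hW : W ∈ irreducibleComponents (MB G r)) :
    ∃ φ : Inv G r →+* integralClosure ℤ ℂ, zbarPoint φ ∈ W := by
  have hG : Group.FG G := Group.fg_of_surjective (f := e.symm.toMonoidHom) e.symm.surjective
  have h0 : ∀ (i : Fin k) (s : ℕ), 0 < s → s ≤ r → CompInt (Γ i) s := by
    intro i s h1 h2 W' hW'
    obtain ⟨φ, hφ⟩ := h i s h1 h2 W' hW'
    obtain ⟨ρ, hρ⟩ := exists_rep ((algebraMap (integralClosure ℤ ℂ) ℂ).comp φ)
    obtain ⟨ρ₀, h3, h4⟩ := locInt_of_zbar φ ρ hρ.symm
    exact ⟨ρ₀, h3, by rw [h4]; exact hφ⟩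
  obtain ⟨ρ₀, h2, h3⟩ := (compInt_pi k Γ r h0).equiv e.symm W hW
  obtain ⟨φ, hφ⟩ := zbar_of_locInt ρ₀ h2
  exact ⟨φ, by rw [hφ]; exact h3⟩
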