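import Pool.Agent.Lib.MP_89b6e6_ag.Adapt
import Pool.Agent.Lib.MP_89b6e6_ag.Generic
import Pool.Agent.Lib.MP_89b6e6_ag.Semi

/-!
# Integral points on components of Betti moduli spaces: rank one twists do not obstruct

Let `G` be a finitely generated group (for instance the fundamental group of a connected smooth
projective complex variety), let `MB G r` be the base change to the complex numbers of the affine
quotient over `ℤ` of the representation scheme `Hom(G, GL_r)` by conjugation, and let `W` be an
irreducible component of `MB G r`.

Suppose that some representation gives a point of `W` lying on no other component and is, on a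
normal subgroup of finite index, a sum of simple representations which are projectively integral
(for every valuation subring `O` of `ℂ` they preserve an `O`-lattice up to homothety; for instance
twists by characters of representations defined over the ring of algebraic integers); or suppose
that all semisimple representations over a nonempty open part of `W` are of this kind.  Then `W`
contains a point over the ring of all algebraic integers.
-/

open Pool.Agent.Lib.BettiInt

theorem Pool.Agent.Results.MP_89b6e6_ag.TwistsOfIntegral.result
    (G : Type) [Group G] [Group.FG G] (r : ℕ) (W : Set (MB G r))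
    (hW : W ∈ irreducibleComponents (MB G r))
    (h : (∃ ρ : G →* GL (Fin r) ℂ, pt ρ ∈ W ∧
            (∀ W' ∈ irreducibleComponents (MB G r), pt ρ ∈ W' → W' = W) ∧
            VirtuallyProjIntegral ρ) ∨
         (∃ U : Set (MB G r), IsOpen U ∧ (U ∩ W).Nonempty ∧
            ∀ ρ : G →* GL (Fin r) ℂ, Semisimple ρ → pt ρ ∈ U ∩ W → VirtuallyProjIntegral ρ)) :
    ∃ φ : Inv G r →+* integralClosure ℤ ℂ, zbarPoint φ ∈ W := by
  obtain ⟨ρ, h1, h2, N, hN1, hN2, h3⟩ : ∃ ρ : G →* GL (Fin r) ℂ, pt ρ ∈ W ∧
      (∀ W' ∈ irreducibleComponents (MB G r), pt ρ ∈ W' → W' = W) ∧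
      VirtuallyProjIntegral ρ := by
    rcases h with h | ⟨U, hU, hUW, hall⟩
    · exact h
    · obtain ⟨ρ, h1, h2, h3⟩ := generic_point W hW U hU hUW
      obtain ⟨ρ', hs, hss⟩ := exists_semisimple ρ
      have hpt := pt_eq_of_sameInv hs
      rw [hpt] at h1 h2 h3
      exact ⟨ρ', h2, h3, hall ρ' hss ⟨h1, h2⟩⟩
  obtain ⟨φ, ρ₀, hφ, -⟩ := main_twist W ρ h2 N h3
  exact ⟨φ, hφ⟩
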