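import Pool.Agent.Lib.MP_89b6e6_ag.Generic

/-!
# Integral points on components of Betti moduli spaces

Let `G` be a finitely generated group (for instance the fundamental group of a connected smooth
projective complex variety), let `MB G r` be the base change to the complex numbers of the affine
quotient over `ℤ` of the representation scheme `Hom(G, GL_r)` by conjugation, and let `W` be an
irreducible component of `MB G r`.

If a representation with virtually solvable image gives a point of `W` lying on no other
component, or if all the representations giving a point of some nonempty open part of `W` have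
virtually solvable image, then `W` contains a point over the ring of all algebraic integers, given
moreover by a representation with finite image.
-/

open Pool.Agent.Lib.BettiInt

theorem Pool.Agent.Results.MP_89b6e6_ag.VirtuallySolvable.result
    (G : Type) [Group G] [Group.FG G] (r : ℕ) (W : Set (MB G r))
    (hW : W ∈ irreducibleComponents (MB G r))
    (h : (∃ ρ : G →* GL (Fin r) ℂ, pt ρ ∈ W ∧
            (∀ W' ∈ irreducibleComponents (MB G r), pt ρ ∈ W' → W' = W) ∧
            VirtuallySolvable ρ) ∨
         (∃ U : Set (MB G r), IsOpen U ∧ (U ∩ W).Nonempty ∧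
            ∀ ρ : G →* GL (Fin r) ℂ, pt ρ ∈ U ∩ W → VirtuallySolvable ρ)) :
    ∃ (φ : Inv G r →+* integralClosure ℤ ℂ) (ρ₀ : G →* GL (Fin r) ℂ),
      zbarPoint φ ∈ W ∧ zbarPoint φ = pt ρ₀ ∧ Finite ρ₀.range := by
  obtain ⟨ρ, h1, h2, h3⟩ : ∃ ρ : G →* GL (Fin r) ℂ, pt ρ ∈ W ∧
      (∀ W' ∈ irreducibleComponents (MB G r), pt ρ ∈ W' → W' = W) ∧ VirtuallySolvable ρ := by
    rcases h with h | ⟨U, hU, hUW, hall⟩
    · exact h
    · obtain ⟨ρ, h1, h2, h3⟩ := generic_point W hW U hU hUW
      exact ⟨ρ, h2, h3, hall ρ ⟨h1, h2⟩⟩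
  obtain ⟨ρ₀, hfin, hpt⟩ := main_point W ρ h2 h3
  obtain ⟨φ, hφ⟩ := zbar_of_finite ρ₀ hfin
  exact ⟨φ, ρ₀, by rw [hφ]; exact hpt, hφ, hfin⟩
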